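import Pool.Agent.LibCQ2.C7

set_option autoImplicit false

/-! `Quot_d^r(A^2)` is reduced at every point whose module `M = k^d` has a cyclic submodule `S v` such that `M / S v` is cyclic over
`k[α x + β y]` for some `α, β` (a curvilinear quotient), and at every point whose transposed module has this property; every `r`, every `d`,
every algebraically closed field. -/

namespace Pool.Agent.Results.MP_6ef058_ag.CurvilinearQuotient

universe u

section
variable (k : Type u) [CommRing k] (r d : ℕ)

/-- Indices of the coordinates: the entries of two `d × d` matrices (index `0` is `X`, index `1` is `Y`) and of `r` vectors. -/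
abbrev Var := (Fin 2 × Fin d × Fin d) ⊕ (Fin r × Fin d)

/-- The polynomial ring in the entries of two `d × d` matrices and of `r` vectors. -/
abbrev Poly := MvPolynomial (Var r d) k

/-- The generic `d × d` matrix number `s`. -/
noncomputable def genMat (s : Fin 2) : Matrix (Fin d) (Fin d) (Poly k r d) :=
  Matrix.of (fun i j => MvPolynomial.X (Sum.inl (s, i, j)))

/-- The generic vector number `c`. -/
noncomputable def genVec (c : Fin r) : Fin d → Poly k r d :=
  fun i => MvPolynomial.X (Sum.inr (c, i))

/-- The ideal generated by the entries of `X Y - Y X`. -/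
noncomputable def commIdeal : Ideal (Poly k r d) :=
  Ideal.span (Set.range (fun p : Fin d × Fin d =>
    (genMat k r d 0 * genMat k r d 1 - genMat k r d 1 * genMat k r d 0) p.1 p.2))

/-- The coordinate ring of the scheme of commuting pairs of matrices with `r` vectors. -/
def Pairs := Poly k r d ⧸ commIdeal k r d

/-- The ring structure of the quotient ring. -/
noncomputable instance : CommRing (Pairs k r d) :=
  (inferInstance : CommRing (Poly k r d ⧸ commIdeal k r d))

/-- The `k`-algebra structure of the quotient ring. -/
noncomputable instance : Algebra k (Pairs k r d) :=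
  (inferInstance : Algebra k (Poly k r d ⧸ commIdeal k r d))

/-- The quotient map. -/
noncomputable def toPairs (p : Poly k r d) : Pairs k r d := Ideal.Quotient.mk (commIdeal k r d) p

/-- The determinant of the `d` vectors `X ^ a Y ^ b v_c`, where `(a, b, c)` runs through `f 0, ..., f (d - 1)`. -/
noncomputable def chartDet (f : Fin d → (Fin d × Fin d × Fin r)) : Poly k r d :=
  Matrix.det (Matrix.of (fun (a : Fin d) (b : Fin d) =>
    Matrix.mulVec (genMat k r d 0 ^ (f b).1.val * genMat k r d 1 ^ (f b).2.1.val)
      (genVec k r d (f b).2.2) a))

/-- The coordinate ring of the chart `f` of the stable locus of commuting pairs with `r` vectors. -/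
def Chart (f : Fin d → (Fin d × Fin d × Fin r)) := Localization.Away (toPairs k r d (chartDet k r d f))

/-- The ring structure of the localization. -/
noncomputable instance (f : Fin d → (Fin d × Fin d × Fin r)) : CommRing (Chart k r d f) :=
  (inferInstance : CommRing (Localization.Away (toPairs k r d (chartDet k r d f))))

/-- The `k`-algebra structure of the localization. -/
noncomputable instance (f : Fin d → (Fin d × Fin d × Fin r)) : Algebra k (Chart k r d f) :=
  (inferInstance : Algebra k (Localization.Away (toPairs k r d (chartDet k r d f))))

/-- The map from polynomials to functions on the chart. -/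
noncomputable def toChart (f : Fin d → (Fin d × Fin d × Fin r)) (p : Poly k r d) : Chart k r d f :=
  algebraMap (Pairs k r d) (Localization.Away (toPairs k r d (chartDet k r d f))) (toPairs k r d p)

end

/-- The value at the `k`-point `z` of the chart of the generic matrix number `s`. -/
noncomputable def matAt {k : Type u} [CommRing k] {r d : ℕ} {f : Fin d → (Fin d × Fin d × Fin r)}
    (z : Chart k r d f →ₐ[k] k) (s : Fin 2) : Matrix (Fin d) (Fin d) k :=
  Matrix.of (fun i j => z (toChart k r d f (genMat k r d s i j)))

/-- There are `v`, `w` in `k^d` and `α`, `β` in `k` such that the vectors `X^i Y^j v` and `(α X + β Y)^j w` span `k^d`: for a commuting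
pair `(X, Y)` this says that the module `k^d` over `k[x, y]` has a cyclic submodule whose quotient is cyclic over `k[α x + β y]`. -/
def HasCurvilinearQuotient {k : Type u} [Field k] {d : ℕ} (X Y : Matrix (Fin d) (Fin d) k) : Prop :=
  ∃ (α β : k) (v w : Fin d → k), Submodule.span k ({x | ∃ i j : ℕ, x = (X ^ i * Y ^ j).mulVec v} ∪
    {x | ∃ j : ℕ, x = ((α • X + β • Y) ^ j).mulVec w}) = ⊤

/-- The ideal of the functions on the chart that vanish at the `k`-point `z`. -/
noncomputable def idealAt {k : Type u} [CommRing k] {r d : ℕ} {f : Fin d → (Fin d × Fin d × Fin r)}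
    (z : Chart k r d f →ₐ[k] k) : Ideal (Chart k r d f) := RingHom.ker z

/-- `Chart` is the ring of the frozen statement `S00245`. -/
example (k : Type) [Field k] (r d : ℕ) (f : Fin d → (Fin d × Fin d × Fin r)) :
    Chart k r d f = (Localization.Away
        (Ideal.Quotient.mk
          (Ideal.span (Set.range (fun p : Fin d × Fin d =>
            ((Matrix.of (fun (i : Fin d) (j : Fin d) =>
                (MvPolynomial.X (Sum.inl ((0 : Fin 2), i, j)) :
                  MvPolynomial ((Fin 2 × Fin d × Fin d) ⊕ (Fin r × Fin d)) k)) *
              Matrix.of (fun (i : Fin d) (j : Fin d) =>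
                (MvPolynomial.X (Sum.inl ((1 : Fin 2), i, j)) :
                  MvPolynomial ((Fin 2 × Fin d × Fin d) ⊕ (Fin r × Fin d)) k)) -
             Matrix.of (fun (i : Fin d) (j : Fin d) =>
                (MvPolynomial.X (Sum.inl ((1 : Fin 2), i, j)) :
                  MvPolynomial ((Fin 2 × Fin d × Fin d) ⊕ (Fin r × Fin d)) k)) *
              Matrix.of (fun (i : Fin d) (j : Fin d) =>
                (MvPolynomial.X (Sum.inl ((0 : Fin 2), i, j)) :
                  MvPolynomial ((Fin 2 × Fin d × Fin d) ⊕ (Fin r × Fin d)) k))) p.1 p.2))))
          (Matrix.det (Matrix.of (fun (a : Fin d) (b : Fin d) =>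
            Matrix.mulVec
              ((Matrix.of (fun (i : Fin d) (j : Fin d) =>
                  (MvPolynomial.X (Sum.inl ((0 : Fin 2), i, j)) :
                    MvPolynomial ((Fin 2 × Fin d × Fin d) ⊕ (Fin r × Fin d)) k)) ^ ((f b).1.val)) *
               (Matrix.of (fun (i : Fin d) (j : Fin d) =>
                  (MvPolynomial.X (Sum.inl ((1 : Fin 2), i, j)) :
                    MvPolynomial ((Fin 2 × Fin d × Fin d) ⊕ (Fin r × Fin d)) k)) ^ ((f b).2.1.val)))
              (fun (i : Fin d) =>
                (MvPolynomial.X (Sum.inr ((f b).2.2, i)) :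
                  MvPolynomial ((Fin 2 × Fin d × Fin d) ⊕ (Fin r × Fin d)) k)) a))))) := rfl

/-- **Theorem.** Let `z` be a `k`-point of a chart of `Quot_d^r(A^2)` (any `r`, `d`; `k` algebraically closed of any characteristic) with
matrices `X`, `Y` such that the module `k^d` has a cyclic submodule whose quotient is cyclic over `k[α x + β y]` for some `α`, `β`, or such
that this holds for the transposed pair. Then the local ring of the chart at `z`, and at every point specializing to `z`, is reduced. -/
theorem result (k : Type u) [Field k] [IsAlgClosed k] (r d : ℕ) (f : Fin d → (Fin d × Fin d × Fin r))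
    (z : Chart k r d f →ₐ[k] k)
    (h : HasCurvilinearQuotient (matAt z 0) (matAt z 1) ∨
      HasCurvilinearQuotient (matAt z 0).transpose (matAt z 1).transpose)
    (P : Ideal (Chart k r d f)) [P.IsPrime] (hP : P ≤ idealAt z) :
    IsReduced (Localization.AtPrime P) := by
  have hinf : Infinite k := IsAlgClosed.instInfinite
  exact @Pool.Agent.LibCQ2.main k _ hinf r d f z P ‹P.IsPrime› hP (matAt z 0) (matAt z 1) (fun _ _ => rfl)
    (fun _ _ => rfl) h

end Pool.Agent.Results.MP_6ef058_ag.CurvilinearQuotient
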