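import Pool.Agent.LibCQ2.D3

set_option autoImplicit false

/-! `Quot_d^2(A^2)` is reduced for `d ≤ 5`, every algebraically closed field. -/

namespace Pool.Agent.Results.MP_6ef058_ag.RankTwoUpToFive

universe u

section
variable (k : Type u) [CommRing k] (r d : ℕ)

/-- Indices of the coordinates: the entries of two `d × d` matrices (index `0` is `X`, index `1` is `Y`) and of `r` vectors. -/
abbrev Var := (Fin 2 × Fin d × Fin d) ⊕ (Fin r × Fin d)

/-- The polynomial ring in the entries of two `d × d` matrices and of `r` vectors. -/
abbrev Poly := MvPolynomial (Var r d) k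

/-- The generic `d × d` matrix number `s`. -/
noncomputable def genMat (s : Fin 2) : Matrix (Fin d) (Fin d) (Poly k r d) :=
  Matrix.of (fun i j => MvPolynomial.X (Sum.inl (s, i, j)))

/-- The generic vector number `c`. -/
noncomputable def genVec (c : Fin r) : Fin d → Poly k r d :=
  fun i => MvPolynomial.X (Sum.inr (c, i))

/-- The ideal generated by the entries of `X Y - Y X`. -/
noncomputable def commIdeal : Ideal (Poly k r d) :=
  Ideal.span (Set.range (fun p : Fin d × Fin d =>
    (genMat k r d 0 * genMat k r d 1 - genMat k r d 1 * genMat k r d 0) p.1 p.2))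

/-- The coordinate ring of the scheme of commuting pairs of matrices with `r` vectors. -/
def Pairs := Poly k r d ⧸ commIdeal k r d

/-- The ring structure of the quotient ring. -/
noncomputable instance : CommRing (Pairs k r d) :=
  (inferInstance : CommRing (Poly k r d ⧸ commIdeal k r d))

/-- The `k`-algebra structure of the quotient ring. -/
noncomputable instance : Algebra k (Pairs k r d) :=
  (inferInstance : Algebra k (Poly k r d ⧸ commIdeal k r d))

/-- The quotient map. -/
noncomputable def toPairs (p : Poly k r d) : Pairs k r d := Ideal.Quotient.mk (commIdeal k r d) p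

/-- The determinant of the `d` vectors `X ^ a Y ^ b v_c`, where `(a, b, c)` runs through `f 0, ..., f (d - 1)`. -/
noncomputable def chartDet (f : Fin d → (Fin d × Fin d × Fin r)) : Poly k r d :=
  Matrix.det (Matrix.of (fun (a : Fin d) (b : Fin d) =>
    Matrix.mulVec (genMat k r d 0 ^ (f b).1.val * genMat k r d 1 ^ (f b).2.1.val)
      (genVec k r d (f b).2.2) a))

/-- The coordinate ring of the chart `f` of the stable locus of commuting pairs with `r` vectors. -/
def Chart (f : Fin d → (Fin d × Fin d × Fin r)) := Localization.Away (toPairs k r d (chartDet k r d f))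

/-- The ring structure of the localization. -/
noncomputable instance (f : Fin d → (Fin d × Fin d × Fin r)) : CommRing (Chart k r d f) :=
  (inferInstance : CommRing (Localization.Away (toPairs k r d (chartDet k r d f))))

/-- The `k`-algebra structure of the localization. -/
noncomputable instance (f : Fin d → (Fin d × Fin d × Fin r)) : Algebra k (Chart k r d f) :=
  (inferInstance : Algebra k (Localization.Away (toPairs k r d (chartDet k r d f))))

end

/-- `Chart` is the ring of the frozen statement `S00245`. -/
example (k : Type) [Field k] (r d : ℕ) (f : Fin d → (Fin d × Fin d × Fin r)) :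
    Chart k r d f = (Localization.Away
        (Ideal.Quotient.mk
          (Ideal.span (Set.range (fun p : Fin d × Fin d =>
            ((Matrix.of (fun (i : Fin d) (j : Fin d) =>
                (MvPolynomial.X (Sum.inl ((0 : Fin 2), i, j)) :
                  MvPolynomial ((Fin 2 × Fin d × Fin d) ⊕ (Fin r × Fin d)) k)) *
              Matrix.of (fun (i : Fin d) (j : Fin d) =>
                (MvPolynomial.X (Sum.inl ((1 : Fin 2), i, j)) :
                  MvPolynomial ((Fin 2 × Fin d × Fin d) ⊕ (Fin r × Fin d)) k)) -
             Matrix.of (fun (i : Fin d) (j : Fin d) =>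
                (MvPolynomial.X (Sum.inl ((1 : Fin 2), i, j)) :
                  MvPolynomial ((Fin 2 × Fin d × Fin d) ⊕ (Fin r × Fin d)) k)) *
              Matrix.of (fun (i : Fin d) (j : Fin d) =>
                (MvPolynomial.X (Sum.inl ((0 : Fin 2), i, j)) :
                  MvPolynomial ((Fin 2 × Fin d × Fin d) ⊕ (Fin r × Fin d)) k))) p.1 p.2))))
          (Matrix.det (Matrix.of (fun (a : Fin d) (b : Fin d) =>
            Matrix.mulVec
              ((Matrix.of (fun (i : Fin d) (j : Fin d) =>
                  (MvPolynomial.X (Sum.inl ((0 : Fin 2), i, j)) :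
                    MvPolynomial ((Fin 2 × Fin d × Fin d) ⊕ (Fin r × Fin d)) k)) ^ ((f b).1.val)) *
               (Matrix.of (fun (i : Fin d) (j : Fin d) =>
                  (MvPolynomial.X (Sum.inl ((1 : Fin 2), i, j)) :
                    MvPolynomial ((Fin 2 × Fin d × Fin d) ⊕ (Fin r × Fin d)) k)) ^ ((f b).2.1.val)))
              (fun (i : Fin d) =>
                (MvPolynomial.X (Sum.inr ((f b).2.2, i)) :
                  MvPolynomial ((Fin 2 × Fin d × Fin d) ⊕ (Fin r × Fin d)) k)) a))))) := rfl

/-- **Theorem.** For every algebraically closed field `k` of any characteristic and every `d ≤ 5` all charts of `Quot_d^2(A^2)` are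
reduced. -/
theorem result (k : Type u) [Field k] [IsAlgClosed k] (d : ℕ) (hd : d ≤ 5) (f : Fin d → (Fin d × Fin d × Fin 2)) :
    IsReduced (Chart k 2 d f) :=
  Pool.Agent.LibCQ2.rank_two k d hd f

end Pool.Agent.Results.MP_6ef058_ag.RankTwoUpToFive
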