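import Pool.Agent.LibRG7.R4
import Pool.Agent.LibRG7.R5

set_option autoImplicit false

/-! `Quot_d^r(A^2)` is integral (in particular reduced) at every point whose matrix pair `(X, Y)` has a linear combination
`α X + β Y` with all eigenspaces of dimension at most 2; every `r`, every `d`, every algebraically closed field. -/

namespace Pool.Agent.Results.MP_6ef058_ag.TwoRegular

universe u

section
variable (k : Type u) [CommRing k] (r d : ℕ)

/-- Indices of the coordinates: the entries of two `d × d` matrices (index `0` is `X`, index `1` is `Y`) and of `r` vectors. -/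
abbrev Var := (Fin 2 × Fin d × Fin d) ⊕ (Fin r × Fin d)

/-- The polynomial ring in the entries of two `d × d` matrices and of `r` vectors. -/
abbrev Poly := MvPolynomial (Var r d) k

/-- The generic `d × d` matrix number `s`. -/
noncomputable def genMat (s : Fin 2) : Matrix (Fin d) (Fin d) (Poly k r d) :=
  Matrix.of (fun i j => MvPolynomial.X (Sum.inl (s, i, j)))

/-- The generic vector number `c`. -/
noncomputable def genVec (c : Fin r) : Fin d → Poly k r d :=
  fun i => MvPolynomial.X (Sum.inr (c, i))

/-- The ideal generated by the entries of `X Y - Y X`. -/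
noncomputable def commIdeal : Ideal (Poly k r d) :=
  Ideal.span (Set.range (fun p : Fin d × Fin d =>
    (genMat k r d 0 * genMat k r d 1 - genMat k r d 1 * genMat k r d 0) p.1 p.2))

/-- The coordinate ring of the scheme of commuting pairs of matrices with `r` vectors. -/
def Pairs := Poly k r d ⧸ commIdeal k r d

/-- The ring structure of the quotient ring. -/
noncomputable instance : CommRing (Pairs k r d) :=
  (inferInstance : CommRing (Poly k r d ⧸ commIdeal k r d))

/-- The `k`-algebra structure of the quotient ring. -/
noncomputable instance : Algebra k (Pairs k r d) :=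
  (inferInstance : Algebra k (Poly k r d ⧸ commIdeal k r d))

/-- The quotient map. -/
noncomputable def toPairs (p : Poly k r d) : Pairs k r d := Ideal.Quotient.mk (commIdeal k r d) p

/-- The determinant of the `d` vectors `X ^ a Y ^ b v_c`, where `(a, b, c)` runs through `f 0, ..., f (d - 1)`. -/
noncomputable def chartDet (f : Fin d → (Fin d × Fin d × Fin r)) : Poly k r d :=
  Matrix.det (Matrix.of (fun (a : Fin d) (b : Fin d) =>
    Matrix.mulVec (genMat k r d 0 ^ (f b).1.val * genMat k r d 1 ^ (f b).2.1.val)
      (genVec k r d (f b).2.2) a))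

/-- The coordinate ring of the chart `f` of the stable locus of commuting pairs with `r` vectors. -/
def Chart (f : Fin d → (Fin d × Fin d × Fin r)) := Localization.Away (toPairs k r d (chartDet k r d f))

/-- The ring structure of the localization. -/
noncomputable instance (f : Fin d → (Fin d × Fin d × Fin r)) : CommRing (Chart k r d f) :=
  (inferInstance : CommRing (Localization.Away (toPairs k r d (chartDet k r d f))))

/-- The `k`-algebra structure of the localization. -/
noncomputable instance (f : Fin d → (Fin d × Fin d × Fin r)) : Algebra k (Chart k r d f) :=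
  (inferInstance : Algebra k (Localization.Away (toPairs k r d (chartDet k r d f))))

/-- The map from polynomials to functions on the chart. -/
noncomputable def toChart (f : Fin d → (Fin d × Fin d × Fin r)) (p : Poly k r d) : Chart k r d f :=
  algebraMap (Pairs k r d) (Localization.Away (toPairs k r d (chartDet k r d f))) (toPairs k r d p)

end

/-- The value at the `k`-point `z` of the chart of the generic matrix number `s`. -/
noncomputable def matAt {k : Type u} [CommRing k] {r d : ℕ} {f : Fin d → (Fin d × Fin d × Fin r)}
    (z : Chart k r d f →ₐ[k] k) (s : Fin 2) : Matrix (Fin d) (Fin d) k :=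
  Matrix.of (fun i j => z (toChart k r d f (genMat k r d s i j)))

/-- The linear combination `α X + β Y` at the `k`-point `z` of the chart. -/
noncomputable def combAt {k : Type u} [CommRing k] {r d : ℕ} {f : Fin d → (Fin d × Fin d × Fin r)}
    (z : Chart k r d f →ₐ[k] k) (α β : k) : Matrix (Fin d) (Fin d) k :=
  α • matAt z 0 + β • matAt z 1

/-- Every eigenspace of the `d × d` matrix `Z` has dimension at most 2, that is, every `Z - c` has rank at least `d - 2`. -/
def IsTwoRegular {k : Type u} [Field k] {d : ℕ} (Z : Matrix (Fin d) (Fin d) k) : Prop :=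
  ∀ c : k, d ≤ (Z - c • (1 : Matrix (Fin d) (Fin d) k)).rank + 2

/-- The ideal of the functions on the chart that vanish at the `k`-point `z`. -/
noncomputable def idealAt {k : Type u} [CommRing k] {r d : ℕ} {f : Fin d → (Fin d × Fin d × Fin r)}
    (z : Chart k r d f →ₐ[k] k) : Ideal (Chart k r d f) := RingHom.ker z

/-- `Chart` is the ring of the frozen statement `S00245`. -/
example (k : Type) [Field k] (r d : ℕ) (f : Fin d → (Fin d × Fin d × Fin r)) :
    Chart k r d f = (Localization.Away
        (Ideal.Quotient.mk
          (Ideal.span (Set.range (fun p : Fin d × Fin d =>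
            ((Matrix.of (fun (i : Fin d) (j : Fin d) =>
                (MvPolynomial.X (Sum.inl ((0 : Fin 2), i, j)) :
                  MvPolynomial ((Fin 2 × Fin d × Fin d) ⊕ (Fin r × Fin d)) k)) *
              Matrix.of (fun (i : Fin d) (j : Fin d) =>
                (MvPolynomial.X (Sum.inl ((1 : Fin 2), i, j)) :
                  MvPolynomial ((Fin 2 × Fin d × Fin d) ⊕ (Fin r × Fin d)) k)) -
             Matrix.of (fun (i : Fin d) (j : Fin d) =>
                (MvPolynomial.X (Sum.inl ((1 : Fin 2), i, j)) :
                  MvPolynomial ((Fin 2 × Fin d × Fin d) ⊕ (Fin r × Fin d)) k)) *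
              Matrix.of (fun (i : Fin d) (j : Fin d) =>
                (MvPolynomial.X (Sum.inl ((0 : Fin 2), i, j)) :
                  MvPolynomial ((Fin 2 × Fin d × Fin d) ⊕ (Fin r × Fin d)) k))) p.1 p.2))))
          (Matrix.det (Matrix.of (fun (a : Fin d) (b : Fin d) =>
            Matrix.mulVec
              ((Matrix.of (fun (i : Fin d) (j : Fin d) =>
                  (MvPolynomial.X (Sum.inl ((0 : Fin 2), i, j)) :
                    MvPolynomial ((Fin 2 × Fin d × Fin d) ⊕ (Fin r × Fin d)) k)) ^ ((f b).1.val)) *
               (Matrix.of (fun (i : Fin d) (j : Fin d) =>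
                  (MvPolynomial.X (Sum.inl ((1 : Fin 2), i, j)) :
                    MvPolynomial ((Fin 2 × Fin d × Fin d) ⊕ (Fin r × Fin d)) k)) ^ ((f b).2.1.val)))
              (fun (i : Fin d) =>
                (MvPolynomial.X (Sum.inr ((f b).2.2, i)) :
                  MvPolynomial ((Fin 2 × Fin d × Fin d) ⊕ (Fin r × Fin d)) k)) a))))) := rfl

/-- A localization of a ring at a smaller prime is a domain if the localization at the larger one is. -/
private theorem domain_of_le {A : Type*} [CommRing A] (P Q : Ideal A) [P.IsPrime] [Q.IsPrime] (h : P ≤ Q)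
    (hQ : IsDomain (Localization.AtPrime Q)) : IsDomain (Localization.AtPrime P) := by
  have hz : ∀ x : A, algebraMap A (Localization.AtPrime Q) x = 0 →
      algebraMap A (Localization.AtPrime P) x = 0 := by
    intro x hx
    obtain ⟨⟨t, ht⟩, h0⟩ :=
      (IsLocalization.map_eq_zero_iff Q.primeCompl (Localization.AtPrime Q) x).mp hx
    exact (IsLocalization.map_eq_zero_iff P.primeCompl (Localization.AtPrime P) x).mpr
      ⟨⟨t, fun h1 => ht (h h1)⟩, h0⟩
  have hnz : NoZeroDivisors (Localization.AtPrime P) := by
    refine ⟨?_⟩
    intro u v huv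
    obtain ⟨⟨a, s⟩, hs⟩ := IsLocalization.surj P.primeCompl u
    obtain ⟨⟨b, t⟩, ht⟩ := IsLocalization.surj P.primeCompl v
    have h1 : algebraMap A (Localization.AtPrime P) (a * b) = 0 := by
      rw [map_mul, ← hs, ← ht]
      change u * _ * (v * _) = 0
      rw [mul_mul_mul_comm, huv, zero_mul]
    obtain ⟨⟨w, hw⟩, h2⟩ :=
      (IsLocalization.map_eq_zero_iff P.primeCompl (Localization.AtPrime P) _).mp h1
    have h3 : algebraMap A (Localization.AtPrime Q) (w * a) *
        algebraMap A (Localization.AtPrime Q) b = 0 := by
      rw [← map_mul, mul_assoc]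
      change algebraMap A (Localization.AtPrime Q) (w * (a * b)) = 0
      have h4 : w * (a * b) = 0 := h2
      rw [h4, map_zero]
    have hwu : IsUnit (algebraMap A (Localization.AtPrime P) w) :=
      IsLocalization.map_units (Localization.AtPrime P) (⟨w, hw⟩ : P.primeCompl)
    rcases mul_eq_zero.mp h3 with h4 | h4
    · left
      have h5 := hz _ h4
      rw [map_mul] at h5
      have h6 := (hwu.mul_right_eq_zero).mp h5
      rw [← hs] at h6
      exact ((IsLocalization.map_units (Localization.AtPrime P) s).mul_left_eq_zero).mp h6
    · right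
      have h6 := hz _ h4
      rw [← ht] at h6
      exact ((IsLocalization.map_units (Localization.AtPrime P) t).mul_left_eq_zero).mp h6
  exact NoZeroDivisors.to_isDomain _

/-- **Theorem.** Let `z` be a `k`-point of a chart of `Quot_d^r(A^2)` (any `r`, `d`; `k` algebraically closed of any
characteristic) such that some linear combination `α X + β Y` of its two matrices has only eigenspaces of dimension at most 2.
Then the local ring of the chart at `z`, and at every point specializing to `z`, is a domain. -/
theorem result (k : Type u) [Field k] [IsAlgClosed k] (r d : ℕ) (f : Fin d → (Fin d × Fin d × Fin r))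
    (z : Chart k r d f →ₐ[k] k) (α β : k)
    (h : IsTwoRegular (combAt z α β)) (P : Ideal (Chart k r d f)) [P.IsPrime] (hP : P ≤ idealAt z) :
    IsDomain (Localization.AtPrime P) := by
  obtain ⟨e, e', he⟩ := Pool.Agent.LibRG7.two_gen (combAt z α β) (fun c => by
    have h1 := h c
    have h2 := LinearMap.finrank_range_add_finrank_ker
      (Matrix.toLin' (combAt z α β - c • (1 : Matrix (Fin d) (Fin d) k)))
    have h3 : Module.finrank k (LinearMap.range
        (Matrix.toLin' (combAt z α β - c • (1 : Matrix (Fin d) (Fin d) k)))) =
        (combAt z α β - c • (1 : Matrix (Fin d) (Fin d) k)).rank := by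
      rw [Matrix.toLin'_apply']
      rfl
    rw [h3, Module.finrank_fin_fun] at h2
    omega)
  obtain ⟨Q, hQ⟩ : ∃ Q : Ideal (Chart k r d f), Q = RingHom.ker z := ⟨_, rfl⟩
  have hQ1 : Q.IsPrime := by
    rw [hQ]
    exact RingHom.ker_isPrime z
  refine domain_of_le P Q (hP.trans (le_of_eq hQ.symm)) ?_
  exact @Pool.Agent.LibRG7.main k _ r d f z Q hQ1 hQ α β e e' he

end Pool.Agent.Results.MP_6ef058_ag.TwoRegular
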